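import Pool.Agent.H5.BHG.Stmts3

/-! # Row THR of the board `bhg`: the bound `n / 2` is sharp -/

set_option autoImplicit false

namespace Pool.BHG

open Filter TMLib Pool.PG

/-- Row THR. -/
theorem thr_thm (hPDD : PDDStmt) (hPDW : PDWStmt) (hPDP : PDPStmt) : THRStmt := by
  intro ε hε
  constructor
  · rintro ⟨B, hB, h⟩
    exact ⟨B, hB, fun g v hg hv _ => h g v hg hv⟩
  · rintro ⟨B, hB, h⟩
    obtain ⟨c, hc⟩ := exists_nat_ge (1 / (4 * ε))
    have h4 : (0 : ℝ) < 4 * ε := by linarith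
    have hc0 : 0 < c := by
      have h5 : (0 : ℝ) < 1 / (4 * ε) := by positivity
      have h6 : (0 : ℝ) < (c : ℝ) := lt_of_lt_of_le h5 hc
      exact_mod_cast h6
    have hc1 : 1 ≤ (c : ℝ) * (4 * ε) := by
      rw [div_le_iff₀ h4] at hc
      exact hc
    have hP : PTime (fun p : Game × ℕ => B (pad c p.1, p.2)) :=
      (bin_all.2.1 B hB).comp (PTime.pair ((hPDP c).comp (PTime.fst PTime.id))
        (PTime.snd PTime.id))
    refine ⟨_, bot_all.2 Bool _ hP, fun g v hg hv => ?_⟩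
    obtain ⟨hv1, hw1⟩ := cmw g hg
    have hlen : (Pool.PG.cmp g).length = g.length := by simp [Pool.PG.cmp]
    obtain ⟨hv2, hw2⟩ := hPDW c (Pool.PG.cmp g) hc0 hv1
    obtain ⟨hl, hd⟩ := hPDD c (Pool.PG.cmp g)
    have e : min v g.length = v := min_eq_left hv.le
    change B (pad c (Pool.PG.cmp g), min v g.length) = true ↔ _
    have hvl : v < (pad c (Pool.PG.cmp g)).length := by
      rw [hl, hlen]
      nlinarith [Nat.zero_le (2 * c * g.length)]
    rw [e, h _ v hv2 hvl ?_]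
    · rw [hw2 v (by rw [hlen]; exact hv) true]
      exact hw1 v hv true
    · intro u hu
      have h7 := hd u hu
      have h8 : ((c * (Pool.PG.cmp g).length : ℕ) : ℝ) ≤
          ((suc (pad c (Pool.PG.cmp g)) u).toFinset.card : ℝ) := by exact_mod_cast h7
      refine le_trans ?_ h8
      rw [hl]
      push_cast
      have h9 : (0 : ℝ) ≤ ((Pool.PG.cmp g).length : ℝ) := Nat.cast_nonneg _
      have h10 : (1 / 2 - ε) * (2 * (c : ℝ) + 1) ≤ c := by nlinarith
      calc (1 / 2 - ε) * ((2 * (c : ℝ) + 1) * ((Pool.PG.cmp g).length : ℝ))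
          = ((1 / 2 - ε) * (2 * (c : ℝ) + 1)) * ((Pool.PG.cmp g).length : ℝ) := by ring
        _ ≤ (c : ℝ) * ((Pool.PG.cmp g).length : ℝ) := mul_le_mul_of_nonneg_right h10 h9

end Pool.BHG
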